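import Mathlib

/-! Rationality of the vertical coefficients of a nef model. -/

namespace Pool.Agent.H85.MS

open scoped BigOperators

/-- The identity of finitely many real numbers is approximated by a `ℚ`-linear map `ℝ → ℚ` which
fixes `1`. -/
theorem exists_approx (S : Finset ℝ) (ε : ℝ) (hε : 0 < ε) :
    ∃ φ : ℝ →ₗ[ℚ] ℚ, φ 1 = 1 ∧ ∀ x ∈ S, |(φ x : ℝ) - x| < ε := by
  classical
  have hli : LinearIndepOn ℚ id ({1} : Set ℝ) := by
    rw [linearIndepOn_singleton_iff]
    exact one_ne_zero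
  let b := Module.Basis.extend hli
  have h1 : (1 : ℝ) ∈ hli.extend (Set.subset_univ _) :=
    hli.subset_extend _ (Set.mem_singleton 1)
  let i1 : ↥(hli.extend (Set.subset_univ _)) := ⟨1, h1⟩
  have hb : ∀ i, b i = (i : ℝ) := fun i => Module.Basis.extend_apply_self hli i
  -- a bound for the coordinates
  obtain ⟨K, hK0, hK⟩ : ∃ K : ℝ, 0 < K ∧ ∀ x ∈ S,
      ∑ i ∈ (b.repr x).support, |((b.repr x i : ℚ) : ℝ)| ≤ K := by
    refine ⟨1 + ∑ x ∈ S, ∑ i ∈ (b.repr x).support, |((b.repr x i : ℚ) : ℝ)|, ?_, ?_⟩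
    · have : 0 ≤ ∑ x ∈ S, ∑ i ∈ (b.repr x).support, |((b.repr x i : ℚ) : ℝ)| :=
        Finset.sum_nonneg fun x _ => Finset.sum_nonneg fun i _ => abs_nonneg _
      linarith
    · intro x hx
      have := Finset.single_le_sum (f := fun x => ∑ i ∈ (b.repr x).support,
        |((b.repr x i : ℚ) : ℝ)|) (fun y _ => Finset.sum_nonneg fun i _ => abs_nonneg _) hx
      linarith
  have happ : ∀ i : ↥(hli.extend (Set.subset_univ _)), ∃ q : ℚ, |(q : ℝ) - (i : ℝ)| < ε / (2 * K) ∧
      (i = i1 → q = 1) := by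
    intro i
    by_cases hi : i = i1
    · refine ⟨1, ?_, fun _ => rfl⟩
      rw [hi]
      simp only [i1, Rat.cast_one, sub_self, abs_zero]
      positivity
    · obtain ⟨q, hq1, hq2⟩ := exists_rat_btwn (show (i : ℝ) - ε / (2 * K) < (i : ℝ) by
        have : 0 < ε / (2 * K) := by positivity
        linarith)
      refine ⟨q, ?_, fun h => absurd h hi⟩
      rw [abs_lt]
      constructor <;> linarith
  choose q hq hq1 using happ
  let φ : ℝ →ₗ[ℚ] ℚ := b.constr ℚ q
  have hφ : ∀ i : ↥(hli.extend (Set.subset_univ _)), φ (i : ℝ) = q i := by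
    intro i
    rw [← hb i]
    exact b.constr_basis ℚ q i
  refine ⟨φ, ?_, ?_⟩
  · have := hφ i1
    rw [hq1 i1 rfl] at this
    exact this
  · intro x hx
    have hx1 : x = ∑ i ∈ (b.repr x).support, ((b.repr x i : ℚ) : ℝ) * (i : ℝ) := by
      conv_lhs => rw [← b.linearCombination_repr x, Finsupp.linearCombination_apply, Finsupp.sum]
      refine Finset.sum_congr rfl fun i _ => ?_
      rw [hb, Rat.smul_def]
    have hx2 : (φ x : ℝ) = ∑ i ∈ (b.repr x).support, ((b.repr x i : ℚ) : ℝ) * (q i : ℝ) := by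
      have : φ x = ∑ i ∈ (b.repr x).support, b.repr x i * q i := by
        conv_lhs => rw [← b.linearCombination_repr x, Finsupp.linearCombination_apply,
          Finsupp.sum, map_sum]
        refine Finset.sum_congr rfl fun i _ => ?_
        rw [map_smul, hb, hφ, smul_eq_mul]
      rw [this]
      push_cast
      rfl
    have hx3 : (φ x : ℝ) - x = ∑ i ∈ (b.repr x).support,
        ((b.repr x i : ℚ) : ℝ) * ((q i : ℝ) - (i : ℝ)) := by
      have hx4 : (φ x : ℝ) - x = (∑ i ∈ (b.repr x).support, ((b.repr x i : ℚ) : ℝ) * (q i : ℝ)) -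
          ∑ i ∈ (b.repr x).support, ((b.repr x i : ℚ) : ℝ) * (i : ℝ) := by
        rw [← hx1, hx2]
      rw [hx4, ← Finset.sum_sub_distrib]
      exact Finset.sum_congr rfl fun i _ => by ring
    rw [hx3]
    refine lt_of_le_of_lt (Finset.abs_sum_le_sum_abs _ _) ?_
    have h4 : ∑ i ∈ (b.repr x).support, |((b.repr x i : ℚ) : ℝ) * ((q i : ℝ) - (i : ℝ))| ≤
        ∑ i ∈ (b.repr x).support, |((b.repr x i : ℚ) : ℝ)| * (ε / (2 * K)) := by
      refine Finset.sum_le_sum fun i _ => ?_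
      rw [abs_mul]
      exact mul_le_mul_of_nonneg_left (hq i).le (abs_nonneg _)
    rw [← Finset.sum_mul] at h4
    have h5 := hK x hx
    have h6 : (∑ i ∈ (b.repr x).support, |((b.repr x i : ℚ) : ℝ)|) * (ε / (2 * K)) ≤
        K * (ε / (2 * K)) := mul_le_mul_of_nonneg_right h5 (by positivity)
    have h7 : K * (ε / (2 * K)) = ε / 2 := by field_simp
    linarith

/-- A finite system of linear inequalities with rational coefficients which has a real solution has
a rational solution. -/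
theorem exists_rat_of_finite {ι J : Type} [Fintype ι] [Finite J] (a : J → ι → ℚ) (b : J → ℚ)
    (s : ι → ℝ) (hs : ∀ j, ∑ i, (a j i : ℝ) * s i ≤ (b j : ℝ)) :
    ∃ q : ι → ℚ, ∀ j, ∑ i, a j i * q i ≤ b j := by
  classical
  have := Fintype.ofFinite J
  -- the smallest gap
  obtain ⟨g, hg0, hg⟩ : ∃ g : ℝ, 0 < g ∧ ∀ j, ∑ i, (a j i : ℝ) * s i < b j →
      g ≤ b j - ∑ i, (a j i : ℝ) * s i := by
    refine ⟨(insert 1 ((Finset.univ.filter fun j => ∑ i, (a j i : ℝ) * s i < b j).image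
      fun j => (b j : ℝ) - ∑ i, (a j i : ℝ) * s i)).min' ⟨1, Finset.mem_insert_self _ _⟩, ?_, ?_⟩
    · rw [Finset.lt_min'_iff]
      intro y hy
      rcases Finset.mem_insert.1 hy with rfl | hy
      · exact one_pos
      · obtain ⟨j, hj, rfl⟩ := Finset.mem_image.1 hy
        exact sub_pos.2 (Finset.mem_filter.1 hj).2
    · intro j hj
      refine Finset.min'_le _ _ (Finset.mem_insert_of_mem (Finset.mem_image.2 ⟨j, ?_, rfl⟩))
      exact Finset.mem_filter.2 ⟨Finset.mem_univ _, hj⟩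
  let S : Finset ℝ := Finset.univ.image fun j => ∑ i, (a j i : ℝ) * s i
  obtain ⟨φ, hφ1, hφ⟩ := exists_approx S g hg0
  have hφq : ∀ c : ℚ, φ (c : ℝ) = c := by
    intro c
    have : (c : ℝ) = c • (1 : ℝ) := by rw [Rat.smul_def, mul_one]
    rw [this, map_smul, hφ1, smul_eq_mul, mul_one]
  refine ⟨fun i => φ (s i), fun j => ?_⟩
  have h1 : ∑ i, a j i * φ (s i) = φ (∑ i, (a j i : ℝ) * s i) := by
    rw [map_sum]
    refine Finset.sum_congr rfl fun i _ => ?_
    rw [← Rat.smul_def, map_smul, smul_eq_mul]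
  rw [h1]
  rcases eq_or_lt_of_le (hs j) with h2 | h2
  · rw [h2, hφq]
  · have h3 := hg j h2
    have h4 := hφ _ (Finset.mem_image.2 ⟨j, Finset.mem_univ _, rfl⟩)
    have h5 := (abs_lt.1 h4).2
    have h6 : ((φ (∑ i, (a j i : ℝ) * s i) : ℚ) : ℝ) ≤ b j := by linarith
    exact_mod_cast h6

/-- **Rationality of the vertical coefficients.** Let `Φ` be a set of inequalities
`∑ v F i * s i ≤ l F` such that the vectors `v F` form a finite set of rational vectors and the
numbers `l F` have a common denominator. If there is a real solution then there is a rational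
solution. -/
theorem exists_rat {ι Φ : Type} [Fintype ι] (v : Φ → ι → ℚ) (l : Φ → ℚ)
    (hv : (Set.range v).Finite) (m : ℕ) (hm : 0 < m) (hl : ∀ F, ∃ z : ℤ, (m : ℚ) * l F = z)
    (s : ι → ℝ) (hs : ∀ F, ∑ i, (v F i : ℝ) * s i ≤ (l F : ℝ)) :
    ∃ q : ι → ℚ, ∀ F, ∑ i, v F i * q i ≤ l F := by
  classical
  -- for each vector the smallest constant
  have hmin : ∀ w : Set.range v, ∃ F : Φ, v F = w ∧ ∀ F', v F' = w → l F ≤ l F' := by
    rintro ⟨w, F0, hF0⟩
    choose z hz using hl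
    -- the integers `z F` with `v F = w` are bounded below
    have hm' : (0 : ℝ) < m := by exact_mod_cast hm
    have hbd : ∀ F, v F = w → ⌊(m : ℝ) * ∑ i, (w i : ℝ) * s i⌋ ≤ z F := by
      intro F hF
      have h1 := hs F
      rw [hF] at h1
      have h2 : (m : ℝ) * l F = z F := by exact_mod_cast hz F
      have h3 : (m : ℝ) * ∑ i, (w i : ℝ) * s i ≤ z F := by
        rw [← h2]
        exact mul_le_mul_of_nonneg_left h1 hm'.le
      have h4 := Int.floor_le ((m : ℝ) * ∑ i, (w i : ℝ) * s i)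
      have h5 : ((⌊(m : ℝ) * ∑ i, (w i : ℝ) * s i⌋ : ℤ) : ℝ) ≤ (z F : ℝ) := le_trans h4 h3
      exact_mod_cast h5
    obtain ⟨y, ⟨F, hF, rfl⟩, hy⟩ := Int.exists_least_of_bdd
      (P := fun y => ∃ F, v F = w ∧ z F = y)
      ⟨⌊(m : ℝ) * ∑ i, (w i : ℝ) * s i⌋, by rintro y ⟨F, hF, rfl⟩; exact hbd F hF⟩
      ⟨z F0, F0, hF0, rfl⟩
    refine ⟨F, hF, fun F' hF' => ?_⟩
    have h6 := hy (z F') ⟨F', hF', rfl⟩
    have h7 : (m : ℚ) * l F ≤ (m : ℚ) * l F' := by
      rw [hz, hz]
      exact_mod_cast h6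
    have hm'' : (0 : ℚ) < m := by exact_mod_cast hm
    exact le_of_mul_le_mul_left h7 hm''
  choose F hF hFmin using hmin
  have : Finite (Set.range v) := hv.to_subtype
  obtain ⟨q, hq⟩ := exists_rat_of_finite (fun w : Set.range v => (w : ι → ℚ))
    (fun w => l (F w)) s (fun w => by
      have := hs (F w)
      rw [hF w] at this
      exact this)
  exact ⟨q, fun G => (hq ⟨v G, G, rfl⟩).trans (hFmin ⟨v G, G, rfl⟩ G rfl)⟩

end Pool.Agent.H85.MS
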