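import Mathlib

/-! Lifting of a fibration of a degenerate fibre to its infinitesimal neighbourhoods: the derivation
argument. -/

namespace Pool.Agent.H85.MS

/-- The direct images of the structure sheaves of the infinitesimal neighbourhoods of a fibre.

Geometry. `𝒳 → Spec R` is a flat projective family of threefolds over a complete discrete valuation
ring `R ⊇ K` with uniformizer `t` and residue field `K` of characteristic zero, `X₀` its closed
fibre, `X_n = 𝒳 mod t^(n+1)`, and `g : X₀ → B` a morphism onto a normal projective surface with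
`g_* O = O`. `Op` is the set of affine open subsets of `B`, `A n U = Γ(g⁻¹ U, O_{X_n})` and
`M U = Γ(U, R¹ g_* O_{X₀}) = H¹(g⁻¹ U, O_{X₀})`; there are no symmetries `T`.

The same formalism is used for a torsor `Y` of a torus `T` over `𝒳`: there `X_n` is replaced by its
preimage in `Y`, functions of weight `χ` being sections of a divisorial sheaf `O(χ)`, `T` acts by the
weights and the constants may contain sections of the sheaves `O(χ)` which are defined on all of
`𝒳`. -/
structure Thick where
  /-- the constants -/
  K : Type
  /-- the affine open subsets of `B` -/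
  Op : Type
  /-- inclusion of open subsets -/
  le : Op → Op → Prop
  /-- the ring of functions on the part of `X_n` over `U` -/
  A : ℕ → Op → Type
  [ring : ∀ n U, CommRing (A n U)]
  /-- sections of `R¹ g_* O_{X₀}` -/
  M : Op → Type
  [addM : ∀ U, AddCommGroup (M U)]
  /-- constant functions -/
  const : ∀ n U, K → A n U
  /-- restriction of functions to a smaller open set -/
  res : ∀ n V U, le V U → A n U → A n V
  /-- restriction of cohomology classes to a smaller open set -/
  resM : ∀ V U, le V U → M U → M V
  /-- restriction from `X_(n+1)` to `X_n` -/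
  red : ∀ n U, A (n + 1) U → A n U
  red_const : ∀ n U c, red n U (const (n + 1) U c) = const n U c
  /-- multiplication by `t`, the isomorphism of `O_{X_n}` with the ideal `t O_{X_(n+1)}` -/
  mul_t : ∀ n U, A n U → A (n + 1) U
  /-- restriction from `X_n` to `X₀` -/
  pr : ∀ n U, A n U → A 0 U
  pr_add : ∀ n U a b, pr n U (a + b) = pr n U a + pr n U b
  pr_mul : ∀ n U a b, pr n U (a * b) = pr n U a * pr n U b
  pr_zero : ∀ U a, pr 0 U a = a
  pr_succ : ∀ n U a, pr (n + 1) U a = pr n U (red n U a)
  pr_res : ∀ n V U h a, pr n V (res n V U h a) = res 0 V U h (pr n U a)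
  /-- `t a` computed on `X_(n+1)` depends only on the restriction of `a` to `X_n` -/
  mul_t_red : ∀ n U a, mul_t n U (red n U a) = mul_t n U 1 * a
  /-- the function `t` restricts to the function `t` -/
  red_mul_t : ∀ n U, red (n + 1) U (mul_t (n + 1) U 1) = mul_t n U 1
  /-- exactness of `0 → O_{X_n} → O_{X_(n+1)} → O_{X₀} → 0` and left exactness of `g_*` -/
  ker_pr : ∀ n U a, pr (n + 1) U a = 0 ↔ ∃ b, mul_t n U b = a
  /-- multiplication of a cohomology class by a function -/
  sm : ∀ U, A 0 U → M U → M U
  sm_zero : ∀ U a, sm U a 0 = 0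
  zero_sm : ∀ U m, sm U 0 m = 0
  /-- the connecting homomorphism of `0 → O_{X₀} → O_{X_(n+1)} → O_{X_n} → 0` -/
  δ : ∀ n U, A n U → M U
  δ_add : ∀ n U a b, δ n U (a + b) = δ n U a + δ n U b
  δ_res : ∀ n V U h a, δ n V (res n V U h a) = resM V U h (δ n U a)
  /-- exactness of the long sequence of direct images -/
  exact : ∀ n U a, δ n U a = 0 ↔ ∃ b, red n U b = a
  /-- the connecting homomorphism of a square zero extension of sheaves of rings is a derivation -/
  δ_mul : ∀ n U a b, δ n U (a * b) = sm U (pr n U a) (δ n U b) + sm U (pr n U b) (δ n U a)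
  /-- the symmetries -/
  T : Type
  act : ∀ n U, T → A n U → A n U
  actM : ∀ U, T → M U → M U
  pr_act : ∀ n U τ a, pr n U (act n U τ a) = act 0 U τ (pr n U a)
  δ_act : ∀ n U τ a, δ n U (act n U τ a) = actM U τ (δ n U a)
  /-- There is no nonzero derivation `O_B → R¹ g_* O_{X₀}` over `K`.

  Sources. All strata of the semi-log-canonical variety `X₀` dominate `B` and `ω_{X₀} = O`, so
  `R^q g_* O_{X₀} = R^q g_* ω_{X₀}` is torsion free (Kollár 1986; Ambro 2003, Fujino 2011 for normal
  crossing and semi-log-canonical varieties), duality gives `R¹ g_* O_{X₀} = ω_B`, hence the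
  derivations are the sections of `Hom(Ω_B, ω_B) = Ω_B^[1]`, and reflexive one-forms of `B` pull back
  to holomorphic one-forms of a smooth model of `X₀`, or of compatible ones on smooth models of the
  components of `X₀` (Greb, Kebekus, Kovács, Peternell 2011), of which there are none since
  `H¹(X₀, O) = 0`. -/
  rigid : ∀ D : ∀ U, A 0 U → M U, (∀ U a b, D U (a + b) = D U a + D U b) →
    (∀ V U h a, D V (res 0 V U h a) = resM V U h (D U a)) →
    (∀ U a b, D U (a * b) = sm U a (D U b) + sm U b (D U a)) →
    (∀ U c, D U (const 0 U c) = 0) → (∀ U τ a, D U (act 0 U τ a) = actM U τ (D U a)) →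
    ∀ U a, D U a = 0

attribute [instance] Thick.ring Thick.addM

namespace Thick

variable (S : Thick)

private lemma pr_zero' (n : ℕ) (U : S.Op) : S.pr n U 0 = 0 :=
  map_zero (AddMonoidHom.mk' (S.pr n U) (S.pr_add n U))

private lemma pr_sub (n : ℕ) (U : S.Op) (a b) : S.pr n U (a - b) = S.pr n U a - S.pr n U b :=
  map_sub (AddMonoidHom.mk' (S.pr n U) (S.pr_add n U)) a b

private lemma δ_zero (n : ℕ) (U : S.Op) : S.δ n U 0 = 0 :=
  map_zero (AddMonoidHom.mk' (S.δ n U) (S.δ_add n U))

private lemma δ_sub (n : ℕ) (U : S.Op) (a b) : S.δ n U (a - b) = S.δ n U a - S.δ n U b :=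
  map_sub (AddMonoidHom.mk' (S.δ n U) (S.δ_add n U)) a b

private lemma pr_const (n : ℕ) (U : S.Op) (c : S.K) :
    S.pr n U (S.const n U c) = S.const 0 U c := by
  induction n with
  | zero => exact S.pr_zero U _
  | succ m ih => rw [S.pr_succ, S.red_const, ih]

lemma pr_t (n : ℕ) (U : S.Op) : S.pr (n + 1) U (S.mul_t n U 1) = 0 :=
  (S.ker_pr n U _).2 ⟨1, rfl⟩

lemma δ_t (n : ℕ) (U : S.Op) : S.δ (n + 1) U (S.mul_t n U 1) = 0 :=
  (S.exact (n + 1) U _).2 ⟨_, S.red_mul_t n U⟩

lemma δ_const (n : ℕ) (U : S.Op) (c : S.K) : S.δ n U (S.const n U c) = 0 :=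
  (S.exact n U _).2 ⟨S.const (n + 1) U c, S.red_const n U c⟩

/-- **The fibration lifts to all infinitesimal neighbourhoods**: all restriction maps
`g_* O_{X_(n+1)} → g_* O_{X_n}` are surjective. -/
theorem red_surjective (n : ℕ) : ∀ U : S.Op, Function.Surjective (S.red n U) := by
  induction n using Nat.strong_induction_on with
  | _ n ih =>
    have hpr : ∀ m, m ≤ n → ∀ U : S.Op, Function.Surjective (S.pr m U) := by
      intro m
      induction m with
      | zero => exact fun _ U x => ⟨x, S.pr_zero U x⟩
      | succ m ihm =>
        intro hm U x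
        obtain ⟨y, hy⟩ := ihm (by omega) U x
        obtain ⟨z, hz⟩ := ih m (by omega) U y
        exact ⟨z, by rw [S.pr_succ, hz, hy]⟩
    have hker : ∀ (U : S.Op) (a : S.A n U), S.pr n U a = 0 → S.δ n U a = 0 := by
      intro U a ha
      cases n with
      | zero => rw [S.pr_zero] at ha; rw [ha, S.δ_zero]
      | succ m =>
        obtain ⟨b, rfl⟩ := (S.ker_pr m U a).1 ha
        obtain ⟨c, rfl⟩ := ih m (by omega) U b
        rw [S.mul_t_red, S.δ_mul, S.pr_t, S.δ_t, S.zero_sm, S.sm_zero, add_zero]
    have hwd : ∀ (U : S.Op) (a b : S.A n U), S.pr n U a = S.pr n U b → S.δ n U a = S.δ n U b := by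
      intro U a b h
      have h1 := hker U (a - b) (by rw [S.pr_sub, h, sub_self])
      rw [S.δ_sub] at h1
      exact sub_eq_zero.1 h1
    let D : ∀ U, S.A 0 U → S.M U := fun U x => S.δ n U (Function.surjInv (hpr n le_rfl U) x)
    have hD : ∀ (U : S.Op) (a : S.A n U), D U (S.pr n U a) = S.δ n U a := fun U a =>
      hwd U _ _ (Function.surjInv_eq _ _)
    have h0 := S.rigid D
      (fun U x y => by
        obtain ⟨a, rfl⟩ := hpr n le_rfl U x
        obtain ⟨b, rfl⟩ := hpr n le_rfl U y
        rw [← S.pr_add, hD, hD, hD, S.δ_add])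
      (fun V U h x => by
        obtain ⟨a, rfl⟩ := hpr n le_rfl U x
        rw [← S.pr_res, hD, hD, S.δ_res])
      (fun U x y => by
        obtain ⟨a, rfl⟩ := hpr n le_rfl U x
        obtain ⟨b, rfl⟩ := hpr n le_rfl U y
        rw [← S.pr_mul, hD, hD, hD, S.δ_mul])
      (fun U c => by
        rw [← S.pr_const n, hD, S.δ_const])
      (fun U τ x => by
        obtain ⟨a, rfl⟩ := hpr n le_rfl U x
        rw [← S.pr_act, hD, hD, S.δ_act])
    intro U a
    exact (S.exact n U a).1 (by rw [← hD, h0])

/-- Every function on an affine open set of `B` lifts compatibly to all infinitesimal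
neighbourhoods. -/
theorem exists_lift (U : S.Op) (f : S.A 0 U) :
    ∃ F : ∀ n, S.A n U, F 0 = f ∧ ∀ n, S.red n U (F (n + 1)) = F n := by
  choose r hr using fun n => S.red_surjective n U
  refine ⟨fun n => Nat.rec f (fun n a => r n a) n, rfl, fun n => hr n _⟩

end Thick

/-- A semiample class on a degenerate fibre whose image is a surface.

`X₀ ⊂ 𝒳` is the closed fibre of a projective family over the complete discrete valuation ring `R`
with Calabi-Yau generic fibre, `X₀` irreducible and canonical, or a chain of components as in type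
II, with `K = 0`; `N` is a divisor class of `𝒳` whose restriction to `X₀` is semiample with a
surface as image, and `g : X₀ → B` is the contraction defined by it: `N = g^*` of an ample class,
numerically. `covered` says that the geometric generic fibre is covered by curves `C` with
`N.C = 0`. -/
structure FibreSurface (covered : Prop) extends Thick where
  /-- a dense set of smooth points `p` of `B` over which `g` is flat -/
  Pt : Type
  /-- an affine neighbourhood of `p` -/
  nb : Pt → Op
  /-- local parameters at `p` on this neighbourhood, with no other common zero than `p`: the curve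
  `Z_p = g⁻¹ p` is given by `u p = v p = 0` in `X₀` -/
  u : ∀ p, A 0 (nb p)
  v : ∀ p, A 0 (nb p)
  /-- Hilbert schemes (Grothendieck), local criterion of flatness, Artin approximation. If `U n`,
  `V n` are compatible lifts of `u p`, `v p` to all `X_n`, then the subschemes `U n = V n = 0` of
  `X_n` are flat over `R / t^(n+1)` and compatible, a point of the Hilbert scheme of `𝒳 / R` with
  values in `R`. So `Z_p` is the specialization of a curve of the geometric generic fibre, of degree
  `N.Z_p = 0` with respect to `N`. If this holds for all `p` in a dense set, then these curves cover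
  the generic fibre, because their specializations cover `X₀`. -/
  hilb : (∀ p, ∃ U V : ∀ n, A n (nb p), U 0 = u p ∧ V 0 = v p ∧
    ∀ n, red n (nb p) (U (n + 1)) = U n ∧ red n (nb p) (V (n + 1)) = V n) → covered

/-- The generic fibre is covered by curves on which the class is zero. -/
theorem FibreSurface.isCovered {covered : Prop} (F : FibreSurface covered) : covered := by
  refine F.hilb fun p => ?_
  obtain ⟨U, hU0, hU⟩ := F.toThick.exists_lift (F.nb p) (F.u p)
  obtain ⟨V, hV0, hV⟩ := F.toThick.exists_lift (F.nb p) (F.v p)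
  exact ⟨U, V, hU0, hV0, fun n => ⟨hU n, hV n⟩⟩

end Pool.Agent.H85.MS
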