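import Pool.Agent.H33.MN.Iface
import Pool.Agent.H57.MN.Run2
import Pool.Agent.H85.MS.Rat

/-!
# MP_5ee2d0_ag: a nef class of the generic fibre has a nef extension on some model

`XX → Δ` is a `K`-trivial projective `Q`-factorial model over the local ring of a prime divisor `b` of
the base, `(XX, X_b)` is log canonical, `X_b` is reduced: irreducible, or a chain of components glued
along surfaces birational to one surface with `K = 0`. `XX` is terminal outside the double surfaces,
and locally `u v = t^e` at their general points.
-/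

namespace Pool.Agent.H85.MS

open Pool.Agent.H33.MN Filter Topology

/-- The divisor classes of the models `XX` over the local ring of one prime divisor of the base. -/
structure DivSpace {P : Type} [AddCommGroup P] (g : Germ P) where
  /-- the components of the special fibre, all but one of them; the special fibre is connected and
  the sum of all its components is zero -/
  I : Type
  [fin : Fintype I]
  /-- the class of a component -/
  V : I → g.Lam
  /-- the components do not meet the generic fibre -/
  rho_V : ∀ i, g.rho (V i) = 0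
  /-- the real classes of divisors up to numerical equivalence over the base, the same space for all
  small modifications of `XX` -/
  N : Type
  [grpN : NormedAddCommGroup N]
  [spN : NormedSpace ℝ N]
  cl : g.Lam →+ N
  /-- an ample class of `XX` -/
  H : N

attribute [instance] DivSpace.fin DivSpace.grpN DivSpace.spN

/-- the real class `x - Σ s_i V_i + d H` -/
noncomputable def DivSpace.tw {P : Type} [AddCommGroup P] {g : Germ P} (D : DivSpace g)
    (x : g.Lam) (s : D.I → ℝ) (d : ℝ) : D.N :=
  D.cl x - ∑ i, s i • D.cl (D.V i) + d • D.H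

/-- Movable classes of the models over the local ring of one prime divisor of the base. -/
structure NefGerm {P : Type} [AddCommGroup P] (g : Germ P) (NefG : P → Prop) extends
    DivSpace g where
  /-- the closed movable cone: limits of classes of divisors a multiple of which has no fixed
  components -/
  Mov : Set N
  closed : IsClosed Mov
  add_mem : ∀ x y, x ∈ Mov → y ∈ Mov → x + y ∈ Mov
  smul_mem : ∀ (r : ℝ) x, 0 ≤ r → x ∈ Mov → r • x ∈ Mov
  H_mem : H ∈ Mov
  /-- Zariski's lemma (negativity lemma): a movable class with support in the special fibre is zero;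
  otherwise its restriction to a component with the largest coefficient is not pseudoeffective -/
  neg : ∀ s, toDivSpace.tw 0 s 0 ∈ Mov → s = 0
  /-- `L + (1/n) H` is ample on the generic fibre; so the fixed components of a large multiple of it
  are components of the special fibre -/
  gen : ∀ x, NefG (g.rho x) → ∀ n : ℕ, 0 < n → ∃ s, toDivSpace.tw x s (1 / n) ∈ Mov
  /-- Covering families of curves of components `V'` of special fibres of small modifications `XX'`
  of `XX`, such that the class of the curves generates an extremal ray of `XX'` which has a divisorial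
  contraction, given by a morphism `V' → W`. For `dim W = 2` take a general fibre of `V' → W`, for
  `dim W = 1` extremal rational curves in a general fibre; for `dim W = 0` the component `V'` is an
  end of the chain, glued along one surface `D`, an ample divisor on `V'`, and we take the class `D.D`
  on `V'`, a positive rational multiple of the class of the complete intersections of two members of
  a multiple of `D`. -/
  Fam : Type
  /-- the intersection number -/
  deg : Fam → N → ℝ
  deg_add : ∀ F x y, deg F (x + y) = deg F x + deg F y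
  deg_smul : ∀ F (r : ℝ) x, deg F (r • x) = r * deg F x
  /-- the curves cover a divisor of a small modification -/
  deg_mov : ∀ F x, x ∈ Mov → 0 ≤ deg F x
  /-- Birkar, Cascini, Hacon and McKernan: let `M` be ample on the generic fibre, so big. The minimal
  model program for `M` stops. If it has only small steps then `M` is semiample on a small
  modification, so movable; otherwise the first divisorial contraction contracts a component of the
  special fibre, the curves of which have negative degree. -/
  rays : ∀ x, NefG (g.rho x) → ∀ s (d : ℝ), 0 < d → (∀ F, 0 ≤ deg F (toDivSpace.tw x s d)) →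
    toDivSpace.tw x s d ∈ Mov
  /-- a common denominator of the intersection numbers with integral classes. In dimension four `XX'`
  is, outside the double surfaces, smooth outside curves, along which transversal slices are Gorenstein
  terminal threefolds, and `Q`-Cartier divisors of these are Cartier (Kawamata). At all but finitely
  many points of a double surface the local class group is cyclic of order `e`, so `e` times an
  integral class is Cartier there. General members of the families with `dim W > 0` avoid the finitely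
  many points that are left. For `dim W = 0` the degree of `x` is the intersection number of `x|D` and
  `D|D`, and `e` times an integral class restricts to a Weil divisor of `D`, a surface with Du Val
  singularities the minimal resolution of which does not depend on the model. -/
  m : ℕ
  m_pos : 0 < m
  int : ∀ F x, ∃ z : ℤ, m * deg F (cl x) = z
  /-- a bound for the intersection numbers with the components. Let `e` be the exponent along the
  double surfaces on `V'`; adjunction gives `V'|V' = - (1/e) D = (1/e) K_V'` for an end of the chain,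
  and in general `V'.F` lies between `K_V'.F` and 0. So `-V'.F ≤ 6` for `dim W > 0` (Kawamata, length of
  extremal rays), while for `dim W = 0` it is at most the degree `(-K_V')^3` of a klt Fano threefold of
  bounded index (Borisov, Alexeev): the index one cover of `V'` at a point of `D` restricts to a cover
  of `D` which is étale outside the point, of degree at most the order of the local fundamental group
  of a Du Val point of a surface with the given minimal resolution. The intersection numbers with the
  other components are not negative, and the sum of all is zero. -/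
  c : ℕ
  bound : ∀ F i, |deg F (cl (V i))| ≤ c
  /-- Birkar, Cascini, Hacon and McKernan: the minimal model program for `x + d H`, `d` tending to
  zero, has only small steps since these classes are in the interior of the movable cone, and only
  finitely many of them over an interval bounded away from zero. If it stops then `x` is nef on the
  last model; otherwise its steps give the data of `ChainRun`, all fields of which are published facts
  about an infinite sequence of steps, see there. That there is no infinite sequence is not assumed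
  but proved (`ChainRun.false`). -/
  mmp : ∀ L, NefG L → ∀ (k : ℕ) (x : g.Lam), 0 < k → g.rho x = k • L →
    (∀ d : ℝ, 0 < d → toDivSpace.tw x 0 d ∈ Mov) →
    (∃ mu, g.Nef mu x) ∨ Nonempty Pool.Agent.H57.MN.ChainRun
  nef_nsmul : ∀ mu x (k : ℕ), g.Nef mu x → g.Nef mu (k • x)

namespace NefGerm

variable {P : Type} [AddCommGroup P] {g : Germ P} {NefG : P → Prop} (S : NefGerm g NefG)

/-- the vertical coefficients for which the class is movable after adding `d H` -/
def K (x : g.Lam) (d : ℝ) : Set (S.I → ℝ) := {s | S.tw x s d ∈ S.Mov}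

theorem continuous_tw (x : g.Lam) (d : ℝ) : Continuous fun s => S.tw x s d := by
  unfold DivSpace.tw
  fun_prop

theorem isClosed_K (x : g.Lam) (d : ℝ) : IsClosed (S.K x d) :=
  S.closed.preimage (S.continuous_tw x d)

theorem K_anti (x : g.Lam) {d e : ℝ} (h : d ≤ e) : S.K x d ⊆ S.K x e := by
  intro s hs
  have h1 := S.add_mem _ _ hs (S.smul_mem (e - d) S.H (sub_nonneg.2 h) S.H_mem)
  have h2 : S.tw x s d + (e - d) • S.H = S.tw x s e := by
    unfold DivSpace.tw
    rw [add_assoc, ← add_smul]
    congr 2
    ring
  rw [h2] at h1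
  exact h1

/-- the vertical coefficients are bounded -/
theorem isBounded_K (x : g.Lam) (d : ℝ) : Bornology.IsBounded (S.K x d) := by
  by_contra hb
  -- a sequence of elements of norm at least `n + 1`
  have h1 : ∀ n : ℕ, ∃ s ∈ S.K x d, (n : ℝ) + 1 ≤ ‖s‖ := by
    intro n
    by_contra hcon
    push Not at hcon
    exact hb (isBounded_iff_forall_norm_le.2 ⟨(n : ℝ) + 1, fun s hs => (hcon s hs).le⟩)
  choose s hs hn using h1
  have hpos : ∀ n, 0 < ‖s n‖ := fun n => lt_of_lt_of_le (by positivity) (hn n)
  -- the directions
  let u : ℕ → S.I → ℝ := fun n => (‖s n‖)⁻¹ • s n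
  have hu : ∀ n, u n ∈ Metric.sphere (0 : S.I → ℝ) 1 := by
    intro n
    rw [mem_sphere_zero_iff_norm]
    simp only [u, norm_smul, norm_inv, norm_norm]
    exact inv_mul_cancel₀ (hpos n).ne'
  obtain ⟨v, hv, φ, hφ, hlim⟩ := (isCompact_sphere (0 : S.I → ℝ) 1).tendsto_subseq hu
  have hinv : Tendsto (fun n => (‖s (φ n)‖)⁻¹) atTop (𝓝 0) := by
    refine Tendsto.inv_tendsto_atTop (tendsto_atTop_mono (fun n => ?_)
      (tendsto_natCast_atTop_atTop (R := ℝ)))
    have h2 := hn (φ n)
    have h3 : (n : ℝ) ≤ φ n := by exact_mod_cast hφ.id_le n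
    linarith
  have hmem : ∀ n, (‖s (φ n)‖)⁻¹ • S.cl x - ∑ i, u (φ n) i • S.cl (S.V i) +
      ((‖s (φ n)‖)⁻¹ * d) • S.H ∈ S.Mov := by
    intro n
    have h2 := S.smul_mem (‖s (φ n)‖)⁻¹ _ (inv_nonneg.2 (norm_nonneg _)) (hs (φ n))
    have h3 : (‖s (φ n)‖)⁻¹ • S.tw x (s (φ n)) d =
        (‖s (φ n)‖)⁻¹ • S.cl x - ∑ i, u (φ n) i • S.cl (S.V i) +
          ((‖s (φ n)‖)⁻¹ * d) • S.H := by
      simp only [DivSpace.tw, u, smul_add, smul_sub, Finset.smul_sum, smul_smul, Pi.smul_apply,
        smul_eq_mul]
    rw [h3] at h2
    exact h2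
  have hl1 : Tendsto (fun n => (‖s (φ n)‖)⁻¹ • S.cl x - ∑ i, u (φ n) i • S.cl (S.V i) +
      ((‖s (φ n)‖)⁻¹ * d) • S.H) atTop
      (𝓝 ((0 : ℝ) • S.cl x - ∑ i, v i • S.cl (S.V i) + ((0 : ℝ) * d) • S.H)) := by
    refine Tendsto.add (Tendsto.sub (hinv.smul_const _) (tendsto_finsetSum _ fun i _ => ?_))
      ((hinv.mul_const d).smul_const _)
    exact ((tendsto_pi_nhds.1 hlim) i).smul_const _
  have h4 := S.closed.mem_of_tendsto hl1 (Eventually.of_forall hmem)
  have h5 := S.neg v (by
    unfold DivSpace.tw
    rw [zero_smul, zero_mul] at h4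
    rw [map_zero]
    exact h4)
  rw [h5, mem_sphere_zero_iff_norm, norm_zero] at hv
  exact zero_ne_one hv

theorem isCompact_K (x : g.Lam) (d : ℝ) : IsCompact (S.K x d) :=
  Metric.isCompact_of_isClosed_isBounded (S.isClosed_K x d) (S.isBounded_K x d)

/-- there are real vertical coefficients which are good for all `d > 0` -/
theorem exists_real (x : g.Lam) (hx : NefG (g.rho x)) : ∃ s, ∀ d : ℝ, 0 < d → s ∈ S.K x d := by
  have h1 : (⋂ n : ℕ, S.K x (1 / ((n : ℝ) + 1))).Nonempty := by
    refine IsCompact.nonempty_iInter_of_sequence_nonempty_isCompact_isClosed _ ?_ ?_ ?_ ?_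
    · intro n
      refine S.K_anti x ?_
      push_cast
      exact one_div_le_one_div_of_le (by positivity) (by linarith)
    · intro n
      obtain ⟨s, hs⟩ := S.gen x hx (n + 1) (Nat.succ_pos n)
      refine ⟨s, ?_⟩
      change S.tw x s (1 / ((n : ℝ) + 1)) ∈ S.Mov
      push_cast at hs
      exact hs
    · exact S.isCompact_K x _
    · exact fun n => S.isClosed_K x _
  obtain ⟨s, hs⟩ := h1
  refine ⟨s, fun d hd => ?_⟩
  obtain ⟨n, hn⟩ := exists_nat_one_div_lt hd
  exact S.K_anti x hn.le (Set.mem_iInter.1 hs n)

/-- the intersection number as a linear form -/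
noncomputable def lin (F : S.Fam) : S.N →ₗ[ℝ] ℝ where
  toFun := S.deg F
  map_add' := S.deg_add F
  map_smul' := S.deg_smul F

theorem deg_tw (F : S.Fam) (x : g.Lam) (s : S.I → ℝ) (d : ℝ) :
    S.deg F (S.tw x s d) =
      S.deg F (S.cl x) - ∑ i, s i * S.deg F (S.cl (S.V i)) + d * S.deg F S.H := by
  change S.lin F (S.tw x s d) = S.lin F (S.cl x) - ∑ i, s i * S.lin F (S.cl (S.V i)) +
    d * S.lin F S.H
  simp only [DivSpace.tw, map_add, map_sub, map_sum, map_smul, smul_eq_mul]

/-- RATIONALITY: there are rational ones. -/
theorem exists_rational (x : g.Lam) (hx : NefG (g.rho x)) :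
    ∃ q : S.I → ℚ, ∀ d : ℝ, 0 < d → (fun i => (q i : ℝ)) ∈ S.K x d := by
  classical
  obtain ⟨s, hs⟩ := S.exists_real x hx
  choose z hz using S.int
  have hm : (0 : ℝ) < S.m := by exact_mod_cast S.m_pos
  have hdeg : ∀ F y, S.deg F (S.cl y) = (((z F y : ℚ) / S.m : ℚ) : ℝ) := by
    intro F y
    push_cast
    rw [eq_div_iff hm.ne', mul_comm]
    exact hz F y
  -- the real solution
  have h1 : ∀ F, ∑ i, ((((z F (S.V i) : ℚ) / S.m : ℚ)) : ℝ) * s i ≤
      (((z F x : ℚ) / S.m : ℚ) : ℝ) := by
    intro F
    have h2 : ∀ d : ℝ, 0 < d → 0 ≤ (S.deg F (S.cl x) - ∑ i, s i * S.deg F (S.cl (S.V i))) +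
        d * S.deg F S.H := by
      intro d hd
      have := S.deg_mov F _ (hs d hd)
      rwa [deg_tw] at this
    have h3 : 0 ≤ S.deg F (S.cl x) - ∑ i, s i * S.deg F (S.cl (S.V i)) := by
      have h4 : Tendsto (fun d : ℝ => (S.deg F (S.cl x) - ∑ i, s i * S.deg F (S.cl (S.V i))) +
          d * S.deg F S.H) (𝓝[>] 0)
          (𝓝 ((S.deg F (S.cl x) - ∑ i, s i * S.deg F (S.cl (S.V i))) + 0 * S.deg F S.H)) := by
        refine Tendsto.mono_left ?_ nhdsWithin_le_nhds
        exact tendsto_const_nhds.add (tendsto_id.mul_const _)
      have h5 := ge_of_tendsto h4 (eventually_mem_nhdsWithin.mono fun d hd => h2 d hd)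
      simpa using h5
    have h6 : ∑ i, ((((z F (S.V i) : ℚ) / S.m : ℚ)) : ℝ) * s i =
        ∑ i, s i * S.deg F (S.cl (S.V i)) := by
      refine Finset.sum_congr rfl fun i _ => ?_
      rw [hdeg, mul_comm]
    rw [h6, ← hdeg]
    linarith
  -- finitely many vectors
  have hfin : (Set.range fun (F : S.Fam) (i : S.I) => ((z F (S.V i) : ℚ) / S.m : ℚ)).Finite := by
    have h2 : (Set.range fun (F : S.Fam) (i : S.I) => ((z F (S.V i) : ℚ) / S.m : ℚ)) ⊆
        Set.pi Set.univ fun _ : S.I => (fun y : ℤ => (y : ℚ) / S.m) ''
          (Set.Icc (-(S.m * S.c : ℤ)) (S.m * S.c : ℤ)) := by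
      rintro w ⟨F, rfl⟩ i -
      refine ⟨z F (S.V i), ?_, rfl⟩
      have h3 := abs_le.1 (S.bound F i)
      have h4 := hz F (S.V i)
      have h5 : (z F (S.V i) : ℝ) ≤ S.m * S.c := by
        rw [← h4]
        exact mul_le_mul_of_nonneg_left h3.2 hm.le
      have h6 : -((S.m : ℝ) * S.c) ≤ z F (S.V i) := by
        rw [← h4, ← mul_neg]
        exact mul_le_mul_of_nonneg_left h3.1 hm.le
      constructor
      · have : ((-(S.m * S.c : ℤ) : ℤ) : ℝ) ≤ (z F (S.V i) : ℝ) := by
          push_cast
          exact h6
        exact_mod_cast this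
      · have : (z F (S.V i) : ℝ) ≤ ((S.m * S.c : ℤ) : ℝ) := by
          push_cast
          exact h5
        exact_mod_cast this
    exact (Set.Finite.pi' fun _ => (Set.finite_Icc _ _).image _).subset (by
      intro w hw i
      exact h2 hw i (Set.mem_univ i))
  obtain ⟨q, hq⟩ := exists_rat (fun (F : S.Fam) (i : S.I) => ((z F (S.V i) : ℚ) / S.m : ℚ))
    (fun F => (z F x : ℚ) / S.m) hfin S.m S.m_pos
    (fun F => ⟨z F x, by
      have : (S.m : ℚ) ≠ 0 := by exact_mod_cast S.m_pos.ne'
      field_simp⟩) s h1
  refine ⟨q, fun d hd => S.rays x hx _ d hd fun F => ?_⟩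
  have h7 : ∑ i, (q i : ℝ) * S.deg F (S.cl (S.V i)) ≤ S.deg F (S.cl x) := by
    have h8 : ((∑ i, ((z F (S.V i) : ℚ) / S.m : ℚ) * q i : ℚ) : ℝ) ≤
        (((z F x : ℚ) / S.m : ℚ) : ℝ) := by exact_mod_cast hq F
    rw [hdeg F x]
    refine le_trans (le_of_eq ?_) h8
    rw [Rat.cast_sum]
    refine Finset.sum_congr rfl fun i _ => ?_
    rw [hdeg, Rat.cast_mul, mul_comm]
  have h9 : 0 ≤ S.deg F S.H := S.deg_mov F _ S.H_mem
  rw [deg_tw]
  have h10 : 0 ≤ d * S.deg F S.H := mul_nonneg hd.le h9
  linarith

/-- finitely many rational numbers have a common denominator -/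
theorem exists_den {ι : Type} [Fintype ι] (q : ι → ℚ) :
    ∃ k : ℕ, 0 < k ∧ ∀ i, ∃ z : ℤ, (k : ℚ) * q i = z := by
  classical
  refine ⟨∏ i, (q i).den, Finset.prod_pos fun i _ => (q i).den_pos, fun i => ?_⟩
  obtain ⟨c, hc⟩ := Finset.dvd_prod_of_mem (fun i => (q i).den) (Finset.mem_univ i)
  refine ⟨c * (q i).num, ?_⟩
  rw [hc]
  push_cast
  have h1 : ((q i).den : ℚ) * q i = (q i).num := by
    rw [mul_comm]
    exact Rat.mul_den_eq_num (q i)
  calc ((q i).den : ℚ) * c * q i = c * (((q i).den : ℚ) * q i) := by ring
    _ = c * (q i).num := by rw [h1]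

include S in
/-- **Nef extension.** A positive multiple of a nef class `L` of the generic fibre extends to a
Cartier class of some model which is nef over the base. -/
theorem nef (L : P) (hL : NefG L) (y : g.Lam) (hy : g.rho y = L)
    (hq : ∀ mu x, ∃ k : ℕ, 0 < k ∧ ∀ j : ℕ, g.Car mu (j • k • x)) :
    ∃ (mu : g.Mo) (k : ℕ) (x : g.Lam), 0 < k ∧ g.rho x = k • L ∧ g.Nef mu x ∧
      ∀ j : ℕ, 0 < j → g.Car mu (j • x) := by
  obtain ⟨q, hqd⟩ := S.exists_rational y (by rw [hy]; exact hL)
  obtain ⟨k, hk, hkz⟩ := exists_den q
  choose z hz using hkz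
  -- an integral class
  let x : g.Lam := k • y - ∑ i, z i • S.V i
  have hx : g.rho x = k • L := by
    simp only [x, map_sub, map_nsmul, map_sum, map_zsmul, S.rho_V, smul_zero,
      Finset.sum_const_zero, sub_zero, hy]
  have hk' : (0 : ℝ) < k := by exact_mod_cast hk
  have hcl : ∀ d : ℝ, S.tw x 0 d = (k : ℝ) • S.tw y (fun i => (q i : ℝ)) (d / k) := by
    intro d
    simp only [x, DivSpace.tw, map_sub, map_nsmul, map_sum, map_zsmul, smul_sub, smul_add,
      Finset.smul_sum, Pi.zero_apply, zero_smul, Finset.sum_const_zero, sub_zero]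
    rw [Nat.cast_smul_eq_nsmul ℝ k, smul_smul, mul_div_cancel₀ d hk'.ne']
    congr 2
    refine Finset.sum_congr rfl fun i _ => ?_
    rw [smul_smul, ← Int.cast_smul_eq_zsmul ℝ (z i)]
    congr 1
    exact_mod_cast (hz i).symm
  rcases S.mmp L hL k x hk hx (fun d hd => by
    rw [hcl]
    exact S.smul_mem k _ hk'.le (hqd (d / k) (div_pos hd hk'))) with ⟨mu, hmu⟩ | hR
  · obtain ⟨e, he, hcar⟩ := hq mu x
    refine ⟨mu, e * k, e • x, Nat.mul_pos he hk, ?_, S.nef_nsmul mu x e hmu, fun j _ => hcar j⟩
    rw [map_nsmul, hx, smul_smul]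
  · obtain ⟨R⟩ := hR
    exact R.false.elim

end NefGerm

end Pool.Agent.H85.MS
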