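import Pool.Agent.H85.MS.Rat

/-! Rational solutions near a real solution. -/

namespace Pool.Agent.H85.MS

open scoped BigOperators

/-- A finite system of linear inequalities with rational coefficients which has a real solution has
rational solutions near it. -/
theorem exists_rat_of_finite_near {ι J : Type} [Fintype ι] [Finite J] (a : J → ι → ℚ) (b : J → ℚ)
    (s : ι → ℝ) (hs : ∀ j, ∑ i, (a j i : ℝ) * s i ≤ (b j : ℝ)) (ε : ℝ) (hε : 0 < ε) :
    ∃ q : ι → ℚ, (∀ j, ∑ i, a j i * q i ≤ b j) ∧ ∀ i, |(q i : ℝ) - s i| < ε := by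
  classical
  have := Fintype.ofFinite J
  -- the smallest gap
  obtain ⟨g, hg0, hg⟩ : ∃ g : ℝ, 0 < g ∧ ∀ j, ∑ i, (a j i : ℝ) * s i < b j →
      g ≤ b j - ∑ i, (a j i : ℝ) * s i := by
    refine ⟨(insert 1 ((Finset.univ.filter fun j => ∑ i, (a j i : ℝ) * s i < b j).image
      fun j => (b j : ℝ) - ∑ i, (a j i : ℝ) * s i)).min' ⟨1, Finset.mem_insert_self _ _⟩, ?_, ?_⟩
    · rw [Finset.lt_min'_iff]
      intro y hy
      rcases Finset.mem_insert.1 hy with rfl | hy
      · exact one_pos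
      · obtain ⟨j, hj, rfl⟩ := Finset.mem_image.1 hy
        exact sub_pos.2 (Finset.mem_filter.1 hj).2
    · intro j hj
      refine Finset.min'_le _ _ (Finset.mem_insert_of_mem (Finset.mem_image.2 ⟨j, ?_, rfl⟩))
      exact Finset.mem_filter.2 ⟨Finset.mem_univ _, hj⟩
  let S : Finset ℝ := (Finset.univ.image fun j => ∑ i, (a j i : ℝ) * s i) ∪ Finset.univ.image s
  obtain ⟨φ, hφ1, hφ⟩ := exists_approx S (min g ε) (lt_min hg0 hε)
  have hφq : ∀ c : ℚ, φ (c : ℝ) = c := by
    intro c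
    have : (c : ℝ) = c • (1 : ℝ) := by rw [Rat.smul_def, mul_one]
    rw [this, map_smul, hφ1, smul_eq_mul, mul_one]
  refine ⟨fun i => φ (s i), fun j => ?_, fun i => ?_⟩
  · have h1 : ∑ i, a j i * φ (s i) = φ (∑ i, (a j i : ℝ) * s i) := by
      rw [map_sum]
      refine Finset.sum_congr rfl fun i _ => ?_
      rw [← Rat.smul_def, map_smul, smul_eq_mul]
    rw [h1]
    rcases eq_or_lt_of_le (hs j) with h2 | h2
    · rw [h2, hφq]
    · have h3 := hg j h2
      have h4 := hφ _ (Finset.mem_union_left _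
        (Finset.mem_image.2 ⟨j, Finset.mem_univ _, rfl⟩))
      have h5 := (abs_lt.1 h4).2
      have h7 := min_le_left g ε
      have h6 : ((φ (∑ i, (a j i : ℝ) * s i) : ℚ) : ℝ) ≤ b j := by linarith
      exact_mod_cast h6
  · exact lt_of_lt_of_le (hφ _ (Finset.mem_union_right _
      (Finset.mem_image.2 ⟨i, Finset.mem_univ _, rfl⟩))) (min_le_right g ε)

/-- **Rational points.** Let the inequalities `∑ v F i * s i ≤ l F` be such that the vectors `v F` form
a finite set of rational vectors and the numbers `l F` have a common denominator. Near each real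
solution there are rational solutions. -/
theorem exists_rat_near {ι Φ : Type} [Fintype ι] (v : Φ → ι → ℚ) (l : Φ → ℚ)
    (hv : (Set.range v).Finite) (m : ℕ) (hm : 0 < m) (hl : ∀ F, ∃ z : ℤ, (m : ℚ) * l F = z)
    (s : ι → ℝ) (hs : ∀ F, ∑ i, (v F i : ℝ) * s i ≤ (l F : ℝ)) (ε : ℝ) (hε : 0 < ε) :
    ∃ q : ι → ℚ, (∀ F, ∑ i, v F i * q i ≤ l F) ∧ ∀ i, |(q i : ℝ) - s i| < ε := by
  classical
  -- for each vector the smallest constant
  have hmin : ∀ w : Set.range v, ∃ F : Φ, v F = w ∧ ∀ F', v F' = w → l F ≤ l F' := by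
    rintro ⟨w, F0, hF0⟩
    choose z hz using hl
    -- the integers `z F` with `v F = w` are bounded below
    have hm' : (0 : ℝ) < m := by exact_mod_cast hm
    have hbd : ∀ F, v F = w → ⌊(m : ℝ) * ∑ i, (w i : ℝ) * s i⌋ ≤ z F := by
      intro F hF
      have h1 := hs F
      rw [hF] at h1
      have h2 : (m : ℝ) * l F = z F := by exact_mod_cast hz F
      have h3 : (m : ℝ) * ∑ i, (w i : ℝ) * s i ≤ z F := by
        rw [← h2]
        exact mul_le_mul_of_nonneg_left h1 hm'.le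
      have h4 := Int.floor_le ((m : ℝ) * ∑ i, (w i : ℝ) * s i)
      have h5 : ((⌊(m : ℝ) * ∑ i, (w i : ℝ) * s i⌋ : ℤ) : ℝ) ≤ (z F : ℝ) := le_trans h4 h3
      exact_mod_cast h5
    obtain ⟨y, ⟨F, hF, rfl⟩, hy⟩ := Int.exists_least_of_bdd
      (P := fun y => ∃ F, v F = w ∧ z F = y)
      ⟨⌊(m : ℝ) * ∑ i, (w i : ℝ) * s i⌋, by rintro y ⟨F, hF, rfl⟩; exact hbd F hF⟩
      ⟨z F0, F0, hF0, rfl⟩
    refine ⟨F, hF, fun F' hF' => ?_⟩
    have h6 := hy (z F') ⟨F', hF', rfl⟩
    have h7 : (m : ℚ) * l F ≤ (m : ℚ) * l F' := by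
      rw [hz, hz]
      exact_mod_cast h6
    have hm'' : (0 : ℚ) < m := by exact_mod_cast hm
    exact le_of_mul_le_mul_left h7 hm''
  choose F hF hFmin using hmin
  have : Finite (Set.range v) := hv.to_subtype
  obtain ⟨q, hq, hqs⟩ := exists_rat_of_finite_near (fun w : Set.range v => (w : ι → ℚ))
    (fun w => l (F w)) s (fun w => by
      have := hs (F w)
      rw [hF w] at this
      exact this) ε hε
  exact ⟨q, fun G => (hq ⟨v G, G, rfl⟩).trans (hFmin ⟨v G, G, rfl⟩ G rfl), hqs⟩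

end Pool.Agent.H85.MS
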