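import Pool.Agent.H33.MN.Iface
import Pool.Agent.H85.MS.RatNear

/-!
# MP_5ee2d0_ag: a nef class of the generic fibre has a nef extension on some model, for all types of
special fibres

`YY → Δ` is a projective `Q`-factorial terminal model over the local ring of a prime divisor `b` of the
base, with trivial canonical class and reduced special fibre `F`, `(YY, F)` is log canonical, the generic
fibre is smooth.
-/

namespace Pool.Agent.H85.MS

open Pool.Agent.H33.MN Filter Topology

/-- The divisor classes of the models `YY` over the local ring of one prime divisor of the base. -/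
structure RealSpace {P : Type} [AddCommGroup P] (g : Germ P) where
  /-- the components of the special fibre, all but one of them; the special fibre is connected and
  the sum of all its components is zero -/
  I : Type
  [fin : Fintype I]
  /-- the class of a component -/
  V : I → g.Lam
  /-- the components do not meet the generic fibre -/
  rho_V : ∀ i, g.rho (V i) = 0
  /-- the real classes of divisors up to numerical equivalence over the base, the same space for all
  small modifications of `YY` -/
  N : Type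
  [grpN : NormedAddCommGroup N]
  [spN : NormedSpace ℝ N]
  cl : g.Lam →+ N
  /-- an ample class of `YY` -/
  H : N

attribute [instance] RealSpace.fin RealSpace.grpN RealSpace.spN

/-- the real class `x - Σ s_i V_i + d H` -/
noncomputable def RealSpace.tw {P : Type} [AddCommGroup P] {g : Germ P} (D : RealSpace g)
    (x : g.Lam) (s : D.I → ℝ) (d : ℝ) : D.N :=
  D.cl x - ∑ i, s i • D.cl (D.V i) + d • D.H

/-- The data of an infinite program for the class `N = L - Σ s_i V_i`: flops
`YY_0 ⇢ YY_1 ⇢ ...` of `Q`-factorial terminal fourfolds, `j`-th step at the threshold `d_j > 0`,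
`q_j^* N_j = q_(j+1)^* N_(j+1) + E_j` on a common resolution. -/
structure FlopRun (I : Type) [Fintype I] (s : I → ℝ) where
  /-- the divisorial valuations `e` with centre in the special fibre, of discrepancy one (the same
  for all `YY_j`) -/
  A : Type
  /-- the centre on `YY_j` is a surface. Terminal varieties are smooth in codimension two; so each
  surface of a special fibre is the centre of exactly one `e`, its blow-up -/
  Surf : ℕ → A → Prop
  /-- the centre on `YY_j` lies in the flopping locus, or equivalently the centre on `YY_(j+1)` lies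
  in the flopped locus -/
  Inv : ℕ → A → Prop
  /-- the limit for `d → 0` of the asymptotic order along `e` of `N_j + d H_j` -/
  sg : ℕ → A → ℝ
  nonneg : ∀ j e, 0 ≤ sg j e
  /-- the order of `E_j` along `e` -/
  E : ℕ → A → ℝ
  sg_step : ∀ j e, sg (j + 1) e = sg j e - E j e
  /-- negativity lemma -/
  E_nonneg : ∀ j e, 0 ≤ E j e
  E_pos : ∀ j e, Inv j e → 0 < E j e
  /-- the orders along `e` of the pull backs of (a fixed integral divisor in the class) `L` and of the
  components of the special fibre of `YY_j` -/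
  oL : ℕ → A → ℝ
  oV : ℕ → I → A → ℝ
  E_eq : ∀ j e, E j e = (oL j e - oL (j + 1) e) - ∑ i, s i * (oV j i e - oV (j + 1) i e)
  /-- `YY_j` is smooth at the general point of a surface -/
  int_L : ∀ j e, Surf j e → ∃ z : ℤ, oL j e = z
  /-- the same for the components; the sum of all these orders is the order of the special fibre,
  which is at most two since the discrepancy of `e` is one and `(YY_j, F_j)` is log canonical -/
  int_V : ∀ j i e, Surf j e → oV j i e = 0 ∨ oV j i e = 1 ∨ oV j i e = 2
  /-- divisors of discrepancy one with smaller centre are exceptional divisors of a log resolution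
  (`YY_0` is terminal and Gorenstein) -/
  fin_small : {e | ¬ Surf 0 e}.Finite
  /-- Let `M` be a general effective divisor in the movable class `N + d H`. The intersection of `M`
  with a component `V` contains the surface with order at least the asymptotic order; so
  `Σ sg(G) G.A^2 ≤ Σ_V N.V.A^2` for an ample divisor `A`. -/
  C : ℝ
  bound : ∀ S : Finset A, (∀ e ∈ S, Surf 0 e) → ∑ e ∈ S, sg 0 e ≤ C
  /-- the rank of the subgroup of `H_4(YY_j)` which is generated by the surfaces -/
  rk : ℕ → ℕ
  /-- If the flopped locus contains no surface then it is a curve, the flopping locus contains a surface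
  (Kawamata, Matsuda and Matsuki: the sum of the two dimensions is at least three), and its class, not
  zero, is killed by the flop, while surfaces of `YY_(j+1)` remain independent in the base. -/
  step : ∀ j, (∃ e, Inv j e ∧ Surf (j + 1) e) ∨ rk (j + 1) < rk j

namespace FlopRun

variable {I : Type} [Fintype I] {s : I → ℝ} (R : FlopRun I s)

/-- positive values of `z - Σ s_i v_i` with integers `z` and `v_i ∈ [-2, 2]` are bounded below -/
theorem exists_gap (s : I → ℝ) :
    ∃ c : ℝ, 0 < c ∧ ∀ (z : ℤ) (v : I → ℤ), (∀ i, v i ∈ Set.Icc (-2 : ℤ) 2) →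
      0 < (z : ℝ) - ∑ i, s i * v i → c ≤ (z : ℝ) - ∑ i, s i * v i := by
  classical
  -- for each `v` the fractional distance
  let T : Finset (I → ℤ) := Fintype.piFinset fun _ => Finset.Icc (-2 : ℤ) 2
  let f : (I → ℤ) → ℝ := fun v => (⌊∑ i, s i * (v i : ℝ)⌋ : ℝ) + 1 - ∑ i, s i * v i
  have hf : ∀ v, 0 < f v := fun v => by
    have := Int.lt_floor_add_one (∑ i, s i * (v i : ℝ))
    simp only [f]
    linarith
  have hne : T.Nonempty := ⟨fun _ => 0, by simp [T]⟩
  obtain ⟨v0, -, hv0⟩ := T.exists_min_image f hne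
  refine ⟨f v0, hf v0, fun z v hv hpos => ?_⟩
  have hvT : v ∈ T := by
    rw [Fintype.mem_piFinset]
    intro i
    exact Finset.mem_Icc.2 (hv i)
  refine (hv0 v hvT).trans ?_
  have h1 : ∑ i, s i * (v i : ℝ) < z := by linarith
  have h2 : ⌊∑ i, s i * (v i : ℝ)⌋ < z := Int.floor_lt.2 h1
  have h3 : (⌊∑ i, s i * (v i : ℝ)⌋ : ℝ) + 1 ≤ z := by exact_mod_cast h2
  simp only [f]
  linarith

theorem anti (j : ℕ) (e : R.A) : R.sg (j + 1) e ≤ R.sg j e := by
  rw [R.sg_step]
  have := R.E_nonneg j e
  linarith

theorem mono (e : R.A) {i j : ℕ} (h : i ≤ j) : R.sg j e ≤ R.sg i e :=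
  antitone_nat_of_succ_le (f := fun n => R.sg n e) (fun n => R.anti n e) h

theorem drop (j : ℕ) (e : R.A) (h : R.Inv j e) : R.sg (j + 1) e < R.sg j e := by
  rw [R.sg_step]
  have := R.E_pos j e h
  linarith

/-- the total drop between two stages -/
theorem total (e : R.A) (i k : ℕ) : R.sg i e - R.sg (i + k) e =
    (R.oL i e - R.oL (i + k) e) - ∑ l, s l * (R.oV i l e - R.oV (i + k) l e) := by
  induction k with
  | zero => simp
  | succ k ih =>
    have h1 := R.sg_step (i + k) e
    have h2 := R.E_eq (i + k) e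
    have h3 : ∑ l, s l * (R.oV i l e - R.oV (i + (k + 1)) l e) =
        ∑ l, s l * (R.oV i l e - R.oV (i + k) l e) +
          ∑ l, s l * (R.oV (i + k) l e - R.oV (i + k + 1) l e) := by
      rw [← Finset.sum_add_distrib]
      refine Finset.sum_congr rfl fun l _ => ?_
      rw [← add_assoc]
      ring
    rw [h3, ← add_assoc, h1, h2]
    linarith

theorem int_mem (j : ℕ) (i : I) (e : R.A) (h : R.Surf j e) :
    ∃ v : ℤ, R.oV j i e = v ∧ v ∈ Set.Icc (0 : ℤ) 2 := by
  rcases R.int_V j i e h with h | h | h
  · exact ⟨0, by rw [h]; norm_num, by norm_num⟩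
  · exact ⟨1, by rw [h]; norm_num, by norm_num⟩
  · exact ⟨2, by rw [h]; norm_num, by norm_num⟩

/-- **There is no infinite program.** -/
theorem absurd (R : FlopRun I s) : False := by
  classical
  obtain ⟨c, hc, hgap⟩ := exists_gap s
  -- drops between surface stages are discrete
  have disc : ∀ i j e, i ≤ j → R.Surf i e → R.Surf j e → R.sg j e < R.sg i e →
      c ≤ R.sg i e - R.sg j e := by
    intro i j e hij hi hj hlt
    obtain ⟨k, rfl⟩ := Nat.exists_eq_add_of_le hij
    have ht := R.total e i k
    obtain ⟨z1, hz1⟩ := R.int_L i e hi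
    obtain ⟨z2, hz2⟩ := R.int_L (i + k) e hj
    choose v1 hv1 hm1 using fun l => R.int_mem i l e hi
    choose v2 hv2 hm2 using fun l => R.int_mem (i + k) l e hj
    have h1 : R.sg i e - R.sg (i + k) e =
        ((z1 - z2 : ℤ) : ℝ) - ∑ l, s l * ((v1 l - v2 l : ℤ) : ℝ) := by
      rw [ht, hz1, hz2]
      push_cast
      congr 1
      refine Finset.sum_congr rfl fun l _ => ?_
      rw [hv1, hv2]
    rw [h1]
    refine hgap (z1 - z2) (fun l => v1 l - v2 l) (fun l => ?_) ?_
    · have h2 := hm1 l
      have h3 := hm2 l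
      simp only [Set.mem_Icc] at h2 h3 ⊢
      omega
    · rw [← h1]
      linarith
  -- only finitely many divisors are bad at the beginning
  have hfin : {e | ¬ (R.Surf 0 e ∧ R.sg 0 e < c)}.Finite := by
    have h1 : {e | R.Surf 0 e ∧ c ≤ R.sg 0 e}.Finite := by
      by_contra hinf
      obtain ⟨n, hn⟩ := exists_nat_gt (R.C / c)
      obtain ⟨S, hS, hcard⟩ := (show {e | R.Surf 0 e ∧ c ≤ R.sg 0 e}.Infinite from
        hinf).exists_subset_card_eq n
      have h2 := R.bound S fun e he => (hS he).1
      have h3 : (n : ℝ) * c ≤ ∑ e ∈ S, R.sg 0 e := by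
        rw [← hcard, ← nsmul_eq_mul, ← Finset.sum_const]
        exact Finset.sum_le_sum fun e he => (hS he).2
      have h4 : R.C < n * c := by rwa [div_lt_iff₀ hc] at hn
      linarith
    refine (R.fin_small.union h1).subset ?_
    intro e he
    by_cases h : R.Surf 0 e
    · right
      refine ⟨h, ?_⟩
      by_contra h2
      exact he ⟨h, not_le.1 h2⟩
    · left
      exact h
  -- each divisor is extracted as a surface finitely often
  have hone : ∀ e, {j | R.Inv j e ∧ R.Surf (j + 1) e}.Finite := by
    intro e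
    by_contra hinf
    have hinf' : {j | R.Inv j e ∧ R.Surf (j + 1) e}.Infinite := hinf
    have key : ∀ k : ℕ, ∃ j, R.Inv j e ∧ R.Surf (j + 1) e ∧
        R.sg (j + 1) e ≤ R.sg 0 e - k * c := by
      intro k
      induction k with
      | zero =>
        obtain ⟨j, hj, -⟩ := hinf'.exists_gt 0
        exact ⟨j, hj.1, hj.2, by simpa using R.mono e (Nat.zero_le (j + 1))⟩
      | succ k ih =>
        obtain ⟨i, hi1, hi2, hi3⟩ := ih
        obtain ⟨j, hj, hij⟩ := hinf'.exists_gt i
        refine ⟨j, hj.1, hj.2, ?_⟩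
        have h1 : R.sg (j + 1) e < R.sg (i + 1) e :=
          (R.drop j e hj.1).trans_le (R.mono e (Nat.succ_le_of_lt hij))
        have h2 := disc (i + 1) (j + 1) e (by omega) hi2 hj.2 h1
        push_cast
        linarith
    obtain ⟨k, hk⟩ := exists_nat_gt (R.sg 0 e / c)
    obtain ⟨j, -, -, hj⟩ := key k
    have h1 := R.nonneg (j + 1) e
    have h2 : R.sg 0 e < k * c := by rwa [div_lt_iff₀ hc] at hk
    linarith
  -- only finitely many steps extract a surface
  have h1 : {j | ∃ e, R.Inv j e ∧ R.Surf (j + 1) e}.Finite := by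
    refine (hfin.biUnion fun e _ => hone e).subset ?_
    rintro j ⟨e, h⟩
    refine Set.mem_biUnion (x := e) ?_ h
    rintro ⟨h0, hlt⟩
    have h2 : R.sg (j + 1) e < R.sg 0 e := (R.drop j e h.1).trans_le (R.mono e (Nat.zero_le j))
    have h3 := disc 0 (j + 1) e (Nat.zero_le _) h0 h.2 h2
    have h4 := R.nonneg (j + 1) e
    linarith
  obtain ⟨J, hJ⟩ := h1.bddAbove
  have h2 : ∀ j, J < j → R.rk (j + 1) < R.rk j := by
    intro j hj
    rcases R.step j with h | h
    · have := hJ h
      omega
    · exact h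
  have h3 : ∀ k : ℕ, R.rk (J + 1 + k) + k ≤ R.rk (J + 1) := by
    intro k
    induction k with
    | zero => simp
    | succ k ih =>
      have := h2 (J + 1 + k) (by omega)
      have e : J + 1 + (k + 1) = J + 1 + k + 1 := by ring
      rw [e]
      omega
  have := h3 (R.rk (J + 1) + 1)
  omega

end FlopRun

/-- Movable and nef classes of the models over the local ring of one prime divisor of the base. -/
structure NefGermT {P : Type} [AddCommGroup P] (g : Germ P) (NefG : P → Prop) extends
    RealSpace g where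
  /-- the closed movable cone: limits of classes of divisors a multiple of which has no fixed
  components -/
  Mov : Set N
  closed : IsClosed Mov
  add_mem : ∀ x y, x ∈ Mov → y ∈ Mov → x + y ∈ Mov
  smul_mem : ∀ (r : ℝ) x, 0 ≤ r → x ∈ Mov → r • x ∈ Mov
  H_mem : H ∈ Mov
  /-- Zariski's lemma (negativity lemma): a movable class with support in the special fibre is zero;
  otherwise its restriction to a component with the largest coefficient is not pseudoeffective -/
  neg : ∀ s, toRealSpace.tw 0 s 0 ∈ Mov → s = 0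
  /-- `L + (1/n) H` is ample on the generic fibre; so the fixed components of a large multiple of it
  are components of the special fibre -/
  gen : ∀ x, NefG (g.rho x) → ∀ n : ℕ, 0 < n → ∃ s, toRealSpace.tw x s (1 / n) ∈ Mov
  /-- nef real classes on a model -/
  NefR : g.Mo → N → Prop
  nef_cl : ∀ mu x, NefR mu (cl x) → g.Nef mu x
  nef_smul : ∀ mu (r : ℝ) x, 0 ≤ r → NefR mu x → NefR mu (r • x)
  /-- Birkar, Cascini, Hacon and McKernan: the minimal model program for `N + d H`,
  `N = x - Σ s_i V_i`, `d` tending to zero, has only small steps since these classes are in the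
  interior of the movable cone, and only finitely many of them over an interval bounded away from
  zero. If it stops then `N` is nef on the last model; otherwise its steps give the data of `FlopRun`,
  all fields of which are published facts, see there. That there is no infinite sequence of steps is
  not assumed but proved (`FlopRun.absurd`). -/
  mmp : ∀ x, NefG (g.rho x) → ∀ s, (∀ d : ℝ, 0 < d → toRealSpace.tw x s d ∈ Mov) →
    (∃ mu, NefR mu (toRealSpace.tw x s 0)) ∨ Nonempty (FlopRun I s)
  /-- rational curves `C` of the model which generate extremal rays, and with `|V.C| ≤ 8` for all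
  components `V` of the special fibre -/
  Ray : g.Mo → Type
  /-- the degree -/
  deg : ∀ mu, Ray mu → N → ℝ
  deg_add : ∀ mu C x y, deg mu C (x + y) = deg mu C x + deg mu C y
  deg_smul : ∀ mu C (r : ℝ) x, deg mu C (r • x) = r * deg mu C x
  bound : ∀ mu C i, |deg mu C (cl (V i))| ≤ 8
  /-- a multiple of each Weil divisor class of the model is Cartier -/
  m : g.Mo → ℕ
  m_pos : ∀ mu, 0 < m mu
  int : ∀ mu C x, ∃ z : ℤ, m mu * deg mu C (cl x) = z
  deg_nef : ∀ mu C x, NefR mu x → 0 ≤ deg mu C x
  /-- Cone theorem, length of extremal rays (Kawamata). Let `N` be nef and `N'` a class with vertical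
  coefficients near those of `N`; so `N' - N` is the class of a vertical divisor `Δ` with coefficients
  in `(0, 1)`, and `(YY, Δ)` is klt. If `N'` is not nef then an extremal ray `R` with `(K + Δ).R < 0`
  has `N'.R < 0`; let `J` be the set of the components `V` with `V.R < 0`, it is not empty. The pair
  `(YY, Σ_J V)` is log canonical, so `R` is generated by a rational curve `C` with `- Σ_J V.C ≤ 8`, and
  the sum of all `V.C` is zero. -/
  cone : ∀ mu x s s', NefR mu (toRealSpace.tw x s 0) → (∀ i, |s' i - s i| < 1 / 2) →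
    (∀ C, 0 ≤ deg mu C (toRealSpace.tw x s' 0)) → NefR mu (toRealSpace.tw x s' 0)
  nef_nsmul : ∀ mu x (k : ℕ), g.Nef mu x → g.Nef mu (k • x)

namespace NefGermT

variable {P : Type} [AddCommGroup P] {g : Germ P} {NefG : P → Prop} (S : NefGermT g NefG)

/-- the vertical coefficients for which the class is movable after adding `d H` -/
def K (x : g.Lam) (d : ℝ) : Set (S.I → ℝ) := {s | S.tw x s d ∈ S.Mov}

theorem continuous_tw (x : g.Lam) (d : ℝ) : Continuous fun s => S.tw x s d := by
  unfold RealSpace.tw
  fun_prop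

theorem isClosed_K (x : g.Lam) (d : ℝ) : IsClosed (S.K x d) :=
  S.closed.preimage (S.continuous_tw x d)

theorem K_anti (x : g.Lam) {d e : ℝ} (h : d ≤ e) : S.K x d ⊆ S.K x e := by
  intro s hs
  have h1 := S.add_mem _ _ hs (S.smul_mem (e - d) S.H (sub_nonneg.2 h) S.H_mem)
  have h2 : S.tw x s d + (e - d) • S.H = S.tw x s e := by
    unfold RealSpace.tw
    rw [add_assoc, ← add_smul]
    congr 2
    ring
  rw [h2] at h1
  exact h1

/-- the vertical coefficients are bounded -/
theorem isBounded_K (x : g.Lam) (d : ℝ) : Bornology.IsBounded (S.K x d) := by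
  by_contra hb
  -- a sequence of elements of norm at least `n + 1`
  have h1 : ∀ n : ℕ, ∃ s ∈ S.K x d, (n : ℝ) + 1 ≤ ‖s‖ := by
    intro n
    by_contra hcon
    push Not at hcon
    exact hb (isBounded_iff_forall_norm_le.2 ⟨(n : ℝ) + 1, fun s hs => (hcon s hs).le⟩)
  choose s hs hn using h1
  have hpos : ∀ n, 0 < ‖s n‖ := fun n => lt_of_lt_of_le (by positivity) (hn n)
  -- the directions
  let u : ℕ → S.I → ℝ := fun n => (‖s n‖)⁻¹ • s n
  have hu : ∀ n, u n ∈ Metric.sphere (0 : S.I → ℝ) 1 := by
    intro n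
    rw [mem_sphere_zero_iff_norm]
    simp only [u, norm_smul, norm_inv, norm_norm]
    exact inv_mul_cancel₀ (hpos n).ne'
  obtain ⟨v, hv, φ, hφ, hlim⟩ := (isCompact_sphere (0 : S.I → ℝ) 1).tendsto_subseq hu
  have hinv : Tendsto (fun n => (‖s (φ n)‖)⁻¹) atTop (𝓝 0) := by
    refine Tendsto.inv_tendsto_atTop (tendsto_atTop_mono (fun n => ?_)
      (tendsto_natCast_atTop_atTop (R := ℝ)))
    have h2 := hn (φ n)
    have h3 : (n : ℝ) ≤ φ n := by exact_mod_cast hφ.id_le n
    linarith
  have hmem : ∀ n, (‖s (φ n)‖)⁻¹ • S.cl x - ∑ i, u (φ n) i • S.cl (S.V i) +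
      ((‖s (φ n)‖)⁻¹ * d) • S.H ∈ S.Mov := by
    intro n
    have h2 := S.smul_mem (‖s (φ n)‖)⁻¹ _ (inv_nonneg.2 (norm_nonneg _)) (hs (φ n))
    have h3 : (‖s (φ n)‖)⁻¹ • S.tw x (s (φ n)) d =
        (‖s (φ n)‖)⁻¹ • S.cl x - ∑ i, u (φ n) i • S.cl (S.V i) +
          ((‖s (φ n)‖)⁻¹ * d) • S.H := by
      simp only [RealSpace.tw, u, smul_add, smul_sub, Finset.smul_sum, smul_smul, Pi.smul_apply,
        smul_eq_mul]
    rw [h3] at h2
    exact h2
  have hl1 : Tendsto (fun n => (‖s (φ n)‖)⁻¹ • S.cl x - ∑ i, u (φ n) i • S.cl (S.V i) +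
      ((‖s (φ n)‖)⁻¹ * d) • S.H) atTop
      (𝓝 ((0 : ℝ) • S.cl x - ∑ i, v i • S.cl (S.V i) + ((0 : ℝ) * d) • S.H)) := by
    refine Tendsto.add (Tendsto.sub (hinv.smul_const _) (tendsto_finsetSum _ fun i _ => ?_))
      ((hinv.mul_const d).smul_const _)
    exact ((tendsto_pi_nhds.1 hlim) i).smul_const _
  have h4 := S.closed.mem_of_tendsto hl1 (Eventually.of_forall hmem)
  have h5 := S.neg v (by
    unfold RealSpace.tw
    rw [zero_smul, zero_mul] at h4
    rw [map_zero]
    exact h4)
  rw [h5, mem_sphere_zero_iff_norm, norm_zero] at hv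
  exact zero_ne_one hv

theorem isCompact_K (x : g.Lam) (d : ℝ) : IsCompact (S.K x d) :=
  Metric.isCompact_of_isClosed_isBounded (S.isClosed_K x d) (S.isBounded_K x d)

/-- there are real vertical coefficients which are good for all `d > 0` -/
theorem exists_real (x : g.Lam) (hx : NefG (g.rho x)) : ∃ s, ∀ d : ℝ, 0 < d → s ∈ S.K x d := by
  have h1 : (⋂ n : ℕ, S.K x (1 / ((n : ℝ) + 1))).Nonempty := by
    refine IsCompact.nonempty_iInter_of_sequence_nonempty_isCompact_isClosed _ ?_ ?_ ?_ ?_
    · intro n
      refine S.K_anti x ?_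
      push_cast
      exact one_div_le_one_div_of_le (by positivity) (by linarith)
    · intro n
      obtain ⟨s, hs⟩ := S.gen x hx (n + 1) (Nat.succ_pos n)
      refine ⟨s, ?_⟩
      change S.tw x s (1 / ((n : ℝ) + 1)) ∈ S.Mov
      push_cast at hs
      exact hs
    · exact S.isCompact_K x _
    · exact fun n => S.isClosed_K x _
  obtain ⟨s, hs⟩ := h1
  refine ⟨s, fun d hd => ?_⟩
  obtain ⟨n, hn⟩ := exists_nat_one_div_lt hd
  exact S.K_anti x hn.le (Set.mem_iInter.1 hs n)

/-- a model on which a class with real vertical coefficients is nef -/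
theorem exists_nef_real (x : g.Lam) (hx : NefG (g.rho x)) :
    ∃ s mu, S.NefR mu (S.tw x s 0) := by
  obtain ⟨s, hs⟩ := S.exists_real x hx
  rcases S.mmp x hx s hs with ⟨mu, hmu⟩ | hR
  · exact ⟨s, mu, hmu⟩
  · obtain ⟨R⟩ := hR
    exact R.absurd.elim

/-- the intersection number as a linear form -/
noncomputable def lin (mu : g.Mo) (C : S.Ray mu) : S.N →ₗ[ℝ] ℝ where
  toFun := S.deg mu C
  map_add' := S.deg_add mu C
  map_smul' := S.deg_smul mu C

theorem deg_tw (mu : g.Mo) (C : S.Ray mu) (x : g.Lam) (s : S.I → ℝ) :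
    S.deg mu C (S.tw x s 0) =
      S.deg mu C (S.cl x) - ∑ i, s i * S.deg mu C (S.cl (S.V i)) := by
  change S.lin mu C (S.tw x s 0) = S.lin mu C (S.cl x) - ∑ i, s i * S.lin mu C (S.cl (S.V i))
  simp only [RealSpace.tw, map_add, map_sub, map_sum, map_smul, smul_eq_mul, zero_mul, add_zero]

/-- RATIONALITY: on the same model a class with rational vertical coefficients is nef. -/
theorem exists_nef_rat (x : g.Lam) (hx : NefG (g.rho x)) :
    ∃ (mu : g.Mo) (q : S.I → ℚ), S.NefR mu (S.tw x (fun i => (q i : ℝ)) 0) := by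
  classical
  obtain ⟨s, mu, hs⟩ := S.exists_nef_real x hx
  choose z hz using S.int mu
  have hm : (0 : ℝ) < S.m mu := by exact_mod_cast S.m_pos mu
  have hdeg : ∀ C y, S.deg mu C (S.cl y) = (((z C y : ℚ) / S.m mu : ℚ) : ℝ) := by
    intro C y
    push_cast
    rw [eq_div_iff hm.ne', mul_comm]
    exact hz C y
  -- the real solution
  have h1 : ∀ C, ∑ i, ((((z C (S.V i) : ℚ) / S.m mu : ℚ)) : ℝ) * s i ≤
      (((z C x : ℚ) / S.m mu : ℚ) : ℝ) := by
    intro C
    have h3 := S.deg_nef mu C _ hs
    rw [deg_tw] at h3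
    have h6 : ∑ i, ((((z C (S.V i) : ℚ) / S.m mu : ℚ)) : ℝ) * s i =
        ∑ i, s i * S.deg mu C (S.cl (S.V i)) := by
      refine Finset.sum_congr rfl fun i _ => ?_
      rw [hdeg, mul_comm]
    rw [h6, ← hdeg]
    linarith
  -- finitely many vectors
  have hfin : (Set.range fun (C : S.Ray mu) (i : S.I) =>
      ((z C (S.V i) : ℚ) / S.m mu : ℚ)).Finite := by
    have h2 : (Set.range fun (C : S.Ray mu) (i : S.I) => ((z C (S.V i) : ℚ) / S.m mu : ℚ)) ⊆
        Set.pi Set.univ fun _ : S.I => (fun y : ℤ => (y : ℚ) / S.m mu) ''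
          (Set.Icc (-(S.m mu * 8 : ℤ)) (S.m mu * 8 : ℤ)) := by
      rintro w ⟨C, rfl⟩ i -
      refine ⟨z C (S.V i), ?_, rfl⟩
      have h3 := abs_le.1 (S.bound mu C i)
      have h4 := hz C (S.V i)
      have h5 : (z C (S.V i) : ℝ) ≤ S.m mu * 8 := by
        rw [← h4]
        exact mul_le_mul_of_nonneg_left h3.2 hm.le
      have h6 : -((S.m mu : ℝ) * 8) ≤ z C (S.V i) := by
        rw [← h4, ← mul_neg]
        exact mul_le_mul_of_nonneg_left h3.1 hm.le
      constructor
      · have : ((-(S.m mu * 8 : ℤ) : ℤ) : ℝ) ≤ (z C (S.V i) : ℝ) := by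
          push_cast
          exact h6
        exact_mod_cast this
      · have : (z C (S.V i) : ℝ) ≤ ((S.m mu * 8 : ℤ) : ℝ) := by
          push_cast
          exact h5
        exact_mod_cast this
    exact (Set.Finite.pi' fun _ => (Set.finite_Icc _ _).image _).subset (by
      intro w hw i
      exact h2 hw i (Set.mem_univ i))
  obtain ⟨q, hq, hqs⟩ := exists_rat_near
    (fun (C : S.Ray mu) (i : S.I) => ((z C (S.V i) : ℚ) / S.m mu : ℚ))
    (fun C => (z C x : ℚ) / S.m mu) hfin (S.m mu) (S.m_pos mu)
    (fun C => ⟨z C x, by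
      have : (S.m mu : ℚ) ≠ 0 := by exact_mod_cast (S.m_pos mu).ne'
      field_simp⟩) s h1 (1 / 2) (by norm_num)
  refine ⟨mu, q, S.cone mu x s _ hs hqs fun C => ?_⟩
  have h7 : ∑ i, (q i : ℝ) * S.deg mu C (S.cl (S.V i)) ≤ S.deg mu C (S.cl x) := by
    have h8 : ((∑ i, ((z C (S.V i) : ℚ) / S.m mu : ℚ) * q i : ℚ) : ℝ) ≤
        (((z C x : ℚ) / S.m mu : ℚ) : ℝ) := by exact_mod_cast hq C
    rw [hdeg C x]
    refine le_trans (le_of_eq ?_) h8
    rw [Rat.cast_sum]
    refine Finset.sum_congr rfl fun i _ => ?_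
    rw [hdeg, Rat.cast_mul, mul_comm]
  rw [deg_tw]
  linarith

/-- finitely many rational numbers have a common denominator -/
theorem exists_den {ι : Type} [Fintype ι] (q : ι → ℚ) :
    ∃ k : ℕ, 0 < k ∧ ∀ i, ∃ z : ℤ, (k : ℚ) * q i = z := by
  classical
  refine ⟨∏ i, (q i).den, Finset.prod_pos fun i _ => (q i).den_pos, fun i => ?_⟩
  obtain ⟨c, hc⟩ := Finset.dvd_prod_of_mem (fun i => (q i).den) (Finset.mem_univ i)
  refine ⟨c * (q i).num, ?_⟩
  rw [hc]
  push_cast
  have h1 : ((q i).den : ℚ) * q i = (q i).num := by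
    rw [mul_comm]
    exact Rat.mul_den_eq_num (q i)
  calc ((q i).den : ℚ) * c * q i = c * (((q i).den : ℚ) * q i) := by ring
    _ = c * (q i).num := by rw [h1]

include S in
/-- **Nef extension.** A positive multiple of a nef class `L` of the generic fibre extends to a
Cartier class of some model which is nef over the base. -/
theorem nef (L : P) (hL : NefG L) (y : g.Lam) (hy : g.rho y = L)
    (hq : ∀ mu x, ∃ k : ℕ, 0 < k ∧ ∀ j : ℕ, g.Car mu (j • k • x)) :
    ∃ (mu : g.Mo) (k : ℕ) (x : g.Lam), 0 < k ∧ g.rho x = k • L ∧ g.Nef mu x ∧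
      ∀ j : ℕ, 0 < j → g.Car mu (j • x) := by
  obtain ⟨mu, q, hmu⟩ := S.exists_nef_rat y (by rw [hy]; exact hL)
  obtain ⟨k, hk, hkz⟩ := exists_den q
  choose z hz using hkz
  -- an integral class
  let x : g.Lam := k • y - ∑ i, z i • S.V i
  have hx : g.rho x = k • L := by
    simp only [x, map_sub, map_nsmul, map_sum, map_zsmul, S.rho_V, smul_zero,
      Finset.sum_const_zero, sub_zero, hy]
  have hk' : (0 : ℝ) < k := by exact_mod_cast hk
  have hcl : S.cl x = (k : ℝ) • S.tw y (fun i => (q i : ℝ)) 0 := by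
    simp only [x, RealSpace.tw, map_sub, map_nsmul, map_sum, map_zsmul, smul_sub, smul_add,
      Finset.smul_sum, zero_smul, smul_zero, add_zero]
    rw [Nat.cast_smul_eq_nsmul ℝ k]
    congr 1
    refine Finset.sum_congr rfl fun i _ => ?_
    rw [smul_smul, ← Int.cast_smul_eq_zsmul ℝ (z i)]
    congr 1
    exact_mod_cast (hz i).symm
  have hnx : g.Nef mu x := S.nef_cl mu x (by rw [hcl]; exact S.nef_smul mu k _ hk'.le hmu)
  obtain ⟨e, he, hcar⟩ := hq mu x
  refine ⟨mu, e * k, e • x, Nat.mul_pos he hk, ?_, S.nef_nsmul mu x e hnx, fun j _ => hcar j⟩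
  rw [map_nsmul, hx, smul_smul]

end NefGermT

end Pool.Agent.H85.MS
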