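import Mathlib

/-! The orientation character of a cycle of components and coinvariants of a filtered module. -/

namespace Pool.Agent.H85.MS

/-- The first homology of the cycle of components. `G` is the (dihedral) group generated by the two
involutions `a`, `b` of the base of the pencil; over a general point of the quotient the double
surfaces of the two ends correspond to the elements of `G` (a torsor), and the components of the
first, respectively second, end of the chain join `g` with `a * g`, respectively `b * g`. A one-cycle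
of this graph is a function `f` with `f (a * g) = - f g` and `f (b * g) = - f g`: the flow through
`g` in the direction from the first to the second end. -/
def cycleHomology {G : Type} [Group G] (a b : G) : Submodule ℚ (G → ℚ) where
  carrier := {f | ∀ g, f (a * g) = - f g ∧ f (b * g) = - f g}
  zero_mem' := fun g => by simp
  add_mem' := fun {f f'} hf hf' g => by
    have h1 := hf g
    have h2 := hf' g
    constructor
    · rw [Pi.add_apply, Pi.add_apply, h1.1, h2.1]; ring
    · rw [Pi.add_apply, Pi.add_apply, h1.2, h2.2]; ring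
  smul_mem' := fun c f hf g => by
    have h1 := hf g
    constructor
    · rw [Pi.smul_apply, Pi.smul_apply, h1.1]; simp
    · rw [Pi.smul_apply, Pi.smul_apply, h1.2]; simp

/-- The monodromy acts by right multiplication. The element `a` acts by `-1` on the homology of the
cycle: the orientation character is not trivial. -/
theorem cycleHomology_reflection {G : Type} [Group G] (a b : G)
    (hab : Subgroup.closure {a, b} = ⊤) (f : G → ℚ) (hf : f ∈ cycleHomology a b) (g : G) :
    f (g * a) = - f g := by
  have key : ∀ g : G, ∃ σ : ℚ, ∀ x, f (g * x) = σ * f x := by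
    intro g
    have hg : g ∈ Subgroup.closure ({a, b} : Set G) := by rw [hab]; trivial
    induction hg using Subgroup.closure_induction with
    | mem y hy =>
      rcases hy with rfl | hy
      · exact ⟨-1, fun x => by rw [(hf x).1]; ring⟩
      · rw [Set.mem_singleton_iff] at hy
        subst hy
        exact ⟨-1, fun x => by rw [(hf x).2]; ring⟩
    | one => exact ⟨1, fun x => by rw [one_mul, one_mul]⟩
    | mul y z _ _ hy hz =>
      obtain ⟨σ, hσ⟩ := hy
      obtain ⟨τ, hτ⟩ := hz
      exact ⟨σ * τ, fun x => by rw [mul_assoc, hσ, hτ, mul_assoc]⟩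
    | inv y _ hy =>
      obtain ⟨σ, hσ⟩ := hy
      refine ⟨σ⁻¹, fun x => ?_⟩
      have h1 : f x = σ * f (y⁻¹ * x) := by rw [← hσ, mul_inv_cancel_left]
      by_cases h0 : σ = 0
      · -- then `f` vanishes identically
        have h2 : ∀ x, f x = 0 := fun x => by
          have := hσ (y⁻¹ * x)
          rw [mul_inv_cancel_left, h0, zero_mul] at this
          exact this
        rw [h2, h2, mul_zero]
      · rw [h1, ← mul_assoc, inv_mul_cancel₀ h0, one_mul]
  obtain ⟨σ, hσ⟩ := key g
  have h1 := hσ a
  have h2 := hσ 1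
  have h3 := (hf 1).1
  rw [mul_one] at h2 h3
  rw [h1, h3, h2]
  ring

/-- A module with a filtration `W₁ ≤ W₂ ≤ H` whose three graded pieces have no coinvariants has no
coinvariants: on `W₁` and on `H / W₂` some group element acts by `-1`, and `W₂ / W₁` has no
coinvariants. -/
theorem coinvariants_eq_zero {π H : Type} [Group π] [AddCommGroup H] [Module ℚ H]
    (ρ : Representation ℚ π H) (W₁ W₂ : Submodule ℚ H)
    (h1 : ∃ γ, ∀ x ∈ W₁, ρ γ x = - x)
    (h2 : ∀ x ∈ W₂, ∃ y ∈ Submodule.span ℚ {z | ∃ (γ : π) (w : H), z = w - ρ γ w}, x - y ∈ W₁)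
    (h3 : ∃ γ, ∀ x, x + ρ γ x ∈ W₂) (x : H) :
    x ∈ Submodule.span ℚ {z | ∃ (γ : π) (w : H), z = w - ρ γ w} := by
  have hW1 : ∀ x ∈ W₁, x ∈ Submodule.span ℚ {z | ∃ (γ : π) (w : H), z = w - ρ γ w} := by
    obtain ⟨γ, hγ⟩ := h1
    intro x hx
    have h4 : x = (1 / 2 : ℚ) • (x - ρ γ x) := by
      rw [hγ x hx, sub_neg_eq_add, ← two_smul ℚ x, smul_smul]
      norm_num
    rw [h4]
    exact Submodule.smul_mem _ _ (Submodule.subset_span ⟨γ, x, rfl⟩)
  have hW2 : ∀ x ∈ W₂, x ∈ Submodule.span ℚ {z | ∃ (γ : π) (w : H), z = w - ρ γ w} := by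
    intro x hx
    obtain ⟨y, hy, hxy⟩ := h2 x hx
    have := Submodule.add_mem _ (hW1 _ hxy) hy
    rwa [sub_add_cancel] at this
  obtain ⟨γ, hγ⟩ := h3
  have h4 : x = (1 / 2 : ℚ) • ((x - ρ γ x) + (x + ρ γ x)) := by
    rw [show (x - ρ γ x) + (x + ρ γ x) = x + x by abel, ← two_smul ℚ x, smul_smul]
    norm_num
  rw [h4]
  exact Submodule.smul_mem _ _ (Submodule.add_mem _ (Submodule.subset_span ⟨γ, x, rfl⟩)
    (hW2 _ (hγ x)))

/-- A map which is constant on the orbits of the group vanishes if there are no coinvariants. -/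
theorem map_eq_zero_of_coinvariants {π H E : Type} [Group π] [AddCommGroup H] [Module ℚ H]
    [AddCommGroup E] [Module ℚ E] (ρ : Representation ℚ π H) (ι : H →ₗ[ℚ] E)
    (hι : ∀ γ x, ι (ρ γ x) = ι x)
    (h : ∀ x, x ∈ Submodule.span ℚ {z | ∃ (γ : π) (w : H), z = w - ρ γ w}) (x : H) : ι x = 0 := by
  have hle : Submodule.span ℚ {z | ∃ (γ : π) (w : H), z = w - ρ γ w} ≤ LinearMap.ker ι := by
    rw [Submodule.span_le]
    rintro z ⟨γ, w, rfl⟩
    rw [SetLike.mem_coe, LinearMap.mem_ker, map_sub, hι, sub_self]
  exact hle (h x)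

end Pool.Agent.H85.MS
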