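import Pool.Agent.H33.MN.Iface
import Pool.Agent.H85.MS.Deriv

/-! Semiampleness in numerical dimension two passes from the special fibre to the generic fibre. -/

namespace Pool.Agent.H85.MS

open Pool.Agent.H33.MN

/-- The comparison of the special fibre `X_b` with the geometric generic fibre `G` for classes of
numerical dimension two. `Two L` says that `L³ = 0` and `L² ≠ 0` numerically on `G`; `Dom mu x` says
that every component of `X_b` and every double surface is mapped onto the image of the contraction of
`X_b` defined by the semiample class `x` (no condition if `X_b` is irreducible). -/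
structure SurfaceGerm {P : Type} [AddCommGroup P] (g : Germ P) (NefG SAG Two : P → Prop)
    (Dom : g.Mo → g.Lam → Prop) where
  /-- the covering families of curves of `G`, up to numerical equivalence -/
  Fam : Type
  /-- the degree of a divisor class on the curves of a family -/
  deg : P → Fam → ℤ
  deg_mul : ∀ (n : ℕ) L C, deg (n • L) C = n * deg L C
  /-- the contraction `X_b → B` defined by a semiample class and its direct images -/
  fib : ∀ (mu : g.Mo) (x : g.Lam), g.SA mu x → Two (g.rho x) → Dom mu x →
    Nonempty (FibreSurface (∃ C, deg (g.rho x) C = 0))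
  /-- Nef reduction (Bauer, Campana, Eckl, Kebekus, Peternell, Rams, Szemberg, Wotzlaw 2002): if
  `L.C = 0` for a covering family and `L³ = 0`, `L² ≠ 0` then `L` is, on a modification, the
  pull-back of a nef and big class of a surface; so `L` has Iitaka dimension two and is semiample
  (Kawamata 1985). -/
  semi : ∀ L, NefG L → Two L → (∃ C, deg L C = 0) → SAG L

/-- If a multiple of the nef class `L` of numerical dimension two extends to a class of a model over
`b` which is semiample on the special fibre, then `L` is semiample. -/
theorem SurfaceGerm.sa {P : Type} [AddCommGroup P] {g : Germ P} {NefG SAG Two : P → Prop}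
    {Dom : g.Mo → g.Lam → Prop} (S : SurfaceGerm g NefG SAG Two Dom) (L : P) (hL : NefG L)
    (h2 : Two L) (n : ℕ) (hn : 0 < n) (h2n : Two (n • L)) (mu : g.Mo) (x : g.Lam)
    (hx : g.rho x = n • L) (hsa : g.SA mu x) (hdom : Dom mu x) : SAG L := by
  obtain ⟨F⟩ := S.fib mu x hsa (by rw [hx]; exact h2n) hdom
  obtain ⟨C, hC⟩ := F.isCovered
  refine S.semi L hL h2 ⟨C, ?_⟩
  rw [hx, S.deg_mul] at hC
  rcases mul_eq_zero.1 hC with h | h
  · exfalso
    have : n = 0 := by exact_mod_cast h
    omega
  · exact h

end Pool.Agent.H85.MS
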